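import Pool.Agent.Helper69.DC.Goals

set_option autoImplicit false

namespace Pool.Agent.Helper64.DC

open MvPolynomial nonZeroDivisors

section

variable {ι : Type}

/-- `f ↦ f(x + T y)` -/
noncomputable def Ph : MvPolynomial ι ℂ →ₐ[ℂ] Polynomial (MvPolynomial (ι ⊕ ι) ℂ) :=
  aeval (fun i => Polynomial.C (X (Sum.inl i)) + Polynomial.X * Polynomial.C (X (Sum.inr i)))

/-- the substitution `x ↦ x + s T y` on coefficients -/
noncomputable def th0 (s : ℂ) :
    MvPolynomial (ι ⊕ ι) ℂ →ₐ[ℂ] Polynomial (MvPolynomial (ι ⊕ ι) ℂ) :=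
  aeval (Sum.elim
    (fun i => Polynomial.C (X (Sum.inl i)) +
      Polynomial.C (C s) * (Polynomial.X * Polynomial.C (X (Sum.inr i))))
    (fun i => Polynomial.C (X (Sum.inr i))))

/-- the substitution `x ↦ x + s T y` -/
noncomputable def th (s : ℂ) :
    Polynomial (MvPolynomial (ι ⊕ ι) ℂ) →+* Polynomial (MvPolynomial (ι ⊕ ι) ℂ) :=
  Polynomial.eval₂RingHom (th0 s).toRingHom Polynomial.X

lemma th_C (s : ℂ) (a : MvPolynomial (ι ⊕ ι) ℂ) : th s (Polynomial.C a) = th0 s a := by
  simp [th]

lemma th_X (s : ℂ) : th s (Polynomial.X : Polynomial (MvPolynomial (ι ⊕ ι) ℂ)) = Polynomial.X := by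
  simp [th]

lemma th_th (a : Polynomial (MvPolynomial (ι ⊕ ι) ℂ)) : th 1 (th (-1) a) = a := by
  have : (th 1).comp (th (-1)) = RingHom.id (Polynomial (MvPolynomial (ι ⊕ ι) ℂ)) := by
    apply Polynomial.ringHom_ext
    · intro a
      rw [RingHom.comp_apply, th_C, RingHom.id_apply]
      have : ((th 1).comp (th0 (-1)).toRingHom : MvPolynomial (ι ⊕ ι) ℂ →+* _) =
          Polynomial.C := by
        apply MvPolynomial.ringHom_ext
        · intro r
          simp [th0, Polynomial.algebraMap_apply, th_C]
        · intro i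
          rcases i with i | i
          · simp only [th0, RingHom.comp_apply, AlgHom.toRingHom_eq_coe, RingHom.coe_coe,
              aeval_X, Sum.elim_inl, map_add, map_mul, th_C, th_X, Sum.elim_inr]
            have h1 : ∀ r : ℂ, (aeval (R := ℂ) (S₁ := Polynomial (MvPolynomial (ι ⊕ ι) ℂ)) (Sum.elim
                (fun i => Polynomial.C (X (Sum.inl i)) +
                Polynomial.C (C 1) * (Polynomial.X * Polynomial.C (X (Sum.inr i))))
                (fun i => Polynomial.C (X (Sum.inr i))))) (C r) = Polynomial.C (C r) := by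
              intro r
              rw [aeval_C]
              simp [Polynomial.algebraMap_apply]
            rw [h1]
            simp
            ring
          · simp [th0, th_C]
      exact congrArg (fun g => g a) this
    · simp [th_X]
  exact congrArg (fun g => g a) this

lemma th_Ph (f : MvPolynomial ι ℂ) : th (-1) (Ph f) = Polynomial.C (rename Sum.inl f) := by
  have : (th (-1)).comp (Ph (ι := ι)).toRingHom =
      Polynomial.C.comp (rename (R := ℂ) (Sum.inl : ι → ι ⊕ ι)).toRingHom := by
    apply MvPolynomial.ringHom_ext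
    · intro r
      simp [Ph, Polynomial.algebraMap_apply, th_C]
    · intro i
      simp [Ph, th_C, th_X, th0]
      ring
  exact congrArg (fun g => g f) this

/-- divisors of a polynomial in `x` -/
lemma dvd_rename (ρ : MvPolynomial (ι ⊕ ι) ℂ) (f : MvPolynomial ι ℂ) (hf : f ≠ 0)
    (h : ρ ∣ rename Sum.inl f) : ∃ r : MvPolynomial ι ℂ, ρ = rename Sum.inl r := by
  -- polynomials in `y` with coefficients in polynomials in `x`
  let e := (MvPolynomial.renameEquiv ℂ (Equiv.sumComm ι ι)).trans
    (MvPolynomial.sumAlgEquiv ℂ ι ι)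
  have he : ∀ g : MvPolynomial ι ℂ, e (rename Sum.inl g) = C g := by
    intro g
    have : (e : MvPolynomial (ι ⊕ ι) ℂ →+* _).comp (rename (R := ℂ) (Sum.inl : ι → ι ⊕ ι)).toRingHom
        = (C : MvPolynomial ι ℂ →+* MvPolynomial ι (MvPolynomial ι ℂ)) := by
      apply MvPolynomial.ringHom_ext
      · intro r
        simp [e]
      · intro i
        simp [e]
    exact congrArg (fun q => q g) this
  have h1 : e ρ ∣ C f := by
    rw [← he]
    exact map_dvd e h
  obtain ⟨b, -, hb⟩ := (dvd_C_iff_exists hf).mp h1
  refine ⟨b, ?_⟩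
  apply e.injective
  rw [hb, he]

end

/-- clearing denominators in a Bezout identity -/
theorem gen {R K : Type} [CommRing R] [IsDomain R] [UniqueFactorizationMonoid R] [Field K]
    [Algebra R K] [IsFractionRing R K] {κ : Type} [Fintype κ] (F : κ → Polynomial R)
    (k0 : κ) (h0 : F k0 ≠ 0) (hu : ∀ P : Polynomial R, (∀ k, P ∣ F k) → IsUnit P) :
    ∃ (D : R) (Q : κ → Polynomial R), D ≠ 0 ∧ ∑ k, Q k * F k = Polynomial.C D := by
  classical
  have hmi : Function.Injective (Polynomial.map (algebraMap R K)) :=
    Polynomial.map_injective _ (IsFractionRing.injective R K)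
  let I : Ideal (Polynomial K) := Ideal.span (Set.range fun k => (F k).map (algebraMap R K))
  have hI : I = ⊤ := by
    by_contra hI
    let g := Submodule.IsPrincipal.generator I
    have hg : I = Ideal.span {g} := (Ideal.span_singleton_generator I).symm
    have hgd : ∀ k, g ∣ (F k).map (algebraMap R K) := by
      intro k
      rw [← Ideal.mem_span_singleton, ← hg]
      exact Ideal.subset_span ⟨k, rfl⟩
    have hgu : ¬ IsUnit g := by
      intro hu
      exact hI (by rw [hg]; exact Ideal.span_singleton_eq_top.mpr hu)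
    have hg0 : g ≠ 0 := by
      intro h0'
      have := hgd k0
      rw [h0', zero_dvd_iff] at this
      exact h0 (hmi (by rw [this, Polynomial.map_zero]))
    have := Classical.arbitrary (NormalizedGCDMonoid R)
    let P := (IsLocalization.integerNormalization R⁰ g).primPart
    have hP : P.IsPrimitive := Polynomial.isPrimitive_primPart _
    obtain ⟨b, hb, hbg⟩ := IsLocalization.integerNormalization_spec R⁰ g
    have hb0 : b ≠ 0 := mem_nonZeroDivisors_iff_ne_zero.mp hb
    have hbu : IsUnit (Polynomial.C (algebraMap R K b)) := by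
      apply Polynomial.isUnit_C.mpr
      apply IsUnit.mk0
      intro h
      exact hb0 (IsFractionRing.injective R K (by rw [h, map_zero]))
    have hPg : P.map (algebraMap R K) ∣ g := by
      have h1 : P.map (algebraMap R K) ∣
          (IsLocalization.integerNormalization R⁰ g).map (algebraMap R K) := by
        rw [(IsLocalization.integerNormalization R⁰ g).eq_C_content_mul_primPart,
          Polynomial.map_mul]
        exact Dvd.intro_left _ rfl
      rw [hbg, Algebra.smul_def, Polynomial.algebraMap_apply] at h1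
      exact (hbu.dvd_mul_left).mp h1
    have hPd : ∀ k, P ∣ F k := fun k =>
      hP.dvd_of_fraction_map_dvd_fraction_map (K := K) (hPg.trans (hgd k))
    exact hgu (Polynomial.isUnit_or_eq_zero_of_isUnit_integerNormalization_primPart hg0
      (hu P hPd))
  have h1 : (1 : Polynomial K) ∈ I := by rw [hI]; trivial
  rw [Ideal.mem_span_range_iff_exists_fun] at h1
  obtain ⟨c, hc⟩ := h1
  choose b hb hbc using fun k => IsLocalization.integerNormalization_spec R⁰ (c k)
  refine ⟨∏ k, b k, fun k => Polynomial.C (∏ j ∈ Finset.univ.erase k, b j) *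
    IsLocalization.integerNormalization R⁰ (c k), Finset.prod_ne_zero_iff.mpr fun k _ =>
      mem_nonZeroDivisors_iff_ne_zero.mp (hb k), ?_⟩
  apply hmi
  rw [Polynomial.map_sum, Polynomial.map_C]
  have : ∀ k, Polynomial.map (algebraMap R K)
      (Polynomial.C (∏ j ∈ Finset.univ.erase k, b j) *
        IsLocalization.integerNormalization R⁰ (c k) * F k) =
      Polynomial.C (algebraMap R K (∏ k, b k)) * (c k * (F k).map (algebraMap R K)) := by
    intro k
    rw [Polynomial.map_mul, Polynomial.map_mul, Polynomial.map_C]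
    have h2 : (IsLocalization.integerNormalization R⁰ (c k)).map (algebraMap R K) =
        Polynomial.C (algebraMap R K (b k)) * c k := by
      have := hbc k
      rw [Algebra.smul_def, Polynomial.algebraMap_apply] at this
      exact this
    rw [h2]
    have h3 : ∏ k, b k = (∏ j ∈ Finset.univ.erase k, b j) * b k := by
      rw [Finset.prod_erase_mul _ _ (Finset.mem_univ k)]
    rw [h3, map_mul (algebraMap R K), Polynomial.C_mul]
    ring
  rw [Finset.sum_congr rfl fun k _ => this k, ← Finset.mul_sum, hc, mul_one]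

theorem g_bez : Pool.Agent.Helper69.DC.G_BEZ := by
  intro ι _ N f hf
  classical
  -- some `f k` is nonzero
  obtain ⟨k0, hk0⟩ : ∃ k, f k ≠ 0 := by
    by_contra hcon
    push Not at hcon
    have := hf 0 (fun k => by rw [hcon k])
    simp at this
  have hinj : Function.Injective (rename (R := ℂ) (Sum.inl : ι → ι ⊕ ι)) :=
    rename_injective _ Sum.inl_injective
  have hPh0 : Ph (f k0) ≠ 0 := by
    intro h
    have h2 := th_Ph (f k0)
    rw [h, map_zero] at h2
    have h3 : rename (Sum.inl : ι → ι ⊕ ι) (f k0) = 0 := by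
      have := h2.symm
      simpa using this
    exact hk0 (hinj (by rw [h3, map_zero]))
  have hu : ∀ P : Polynomial (MvPolynomial (ι ⊕ ι) ℂ), (∀ k, P ∣ Ph (f k)) → IsUnit P := by
    intro P hPd
    -- apply `th (-1)`
    have hd2 : ∀ k, th (-1) P ∣ Polynomial.C (rename Sum.inl (f k)) := by
      intro k
      rw [← th_Ph]
      exact map_dvd _ (hPd k)
    have hne : (Polynomial.C (rename Sum.inl (f k0)) :
        Polynomial (MvPolynomial (ι ⊕ ι) ℂ)) ≠ 0 := by
      intro h
      rw [Polynomial.C_eq_zero] at h
      exact hk0 (hinj (by rw [h, map_zero]))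
    have hdeg : (th (-1) P).natDegree = 0 := by
      have := Polynomial.natDegree_le_of_dvd (hd2 k0) hne
      rw [Polynomial.natDegree_C] at this
      omega
    obtain ⟨ρ, hρ⟩ : ∃ ρ, th (-1) P = Polynomial.C ρ :=
      ⟨_, Polynomial.eq_C_of_natDegree_eq_zero hdeg⟩
    have hρd : ∀ k, ρ ∣ rename Sum.inl (f k) := by
      intro k
      have := hd2 k
      rw [hρ] at this
      rw [Polynomial.C_dvd_iff_dvd_coeff] at this
      have h0 := this 0
      simpa using h0
    obtain ⟨r, hr⟩ := dvd_rename ρ (f k0) hk0 (hρd k0)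
    have hru : IsUnit r := by
      apply hf
      intro k
      have h1 := hρd k
      rw [hr] at h1
      -- evaluate at `y = 0`
      have h2 := map_dvd (aeval (Sum.elim X (fun _ => (0 : MvPolynomial ι ℂ))) :
        MvPolynomial (ι ⊕ ι) ℂ →ₐ[ℂ] MvPolynomial ι ℂ) h1
      rw [aeval_rename, aeval_rename] at h2
      simpa using h2
    have h1 : IsUnit (th (-1) P) := by
      rw [hρ, hr]
      exact Polynomial.isUnit_C.mpr (hru.map (rename (Sum.inl : ι → ι ⊕ ι)))
    have h2 := h1.map (th (1 : ℂ))
    rwa [th_th] at h2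
  obtain ⟨D, Q, hD, hsum⟩ := gen (K := FractionRing (MvPolynomial (ι ⊕ ι) ℂ))
    (fun k => Ph (f k)) k0 hPh0 hu
  refine ⟨D, hD, ?_⟩
  intro x y hxy t
  by_contra hcon
  push Not at hcon
  -- evaluate at `T = t`, `x, y`
  let ev : Polynomial (MvPolynomial (ι ⊕ ι) ℂ) →+* ℂ :=
    Polynomial.eval₂RingHom (eval (Sum.elim x y)) t
  have hev : ∀ g : MvPolynomial ι ℂ, ev (Ph g) = eval (fun i => x i + t * y i) g := by
    intro g
    have : ev.comp (Ph (ι := ι)).toRingHom = eval (fun i => x i + t * y i) := by
      apply MvPolynomial.ringHom_ext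
      · intro r
        simp [ev, Ph, Polynomial.algebraMap_apply]
      · intro i
        simp [ev, Ph]
        ring
    exact congrArg (fun q => q g) this
  have h4 := congrArg ev hsum
  rw [map_sum] at h4
  have h5 : ∀ k, ev (Q k * Ph (f k)) = 0 := by
    intro k
    rw [map_mul, hev, hcon k, mul_zero]
  rw [Finset.sum_congr rfl fun k _ => h5 k, Finset.sum_const_zero] at h4
  apply hxy
  have h6 : ev (Polynomial.C D) = eval (Sum.elim x y) D := by
    simp [ev]
  rw [← h6, ← h4]

end Pool.Agent.Helper64.DC
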