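import Pool.Agent.Helper66.DC.Goals4
import Pool.Agent.Helper8.DC.GOOD
import Pool.Agent.Helper5.DC.LD
import Pool.Agent.Helper64.DC.BEZ
import Pool.Agent.Helper91.DC.OB
import Pool.Agent.Helper28.Ball.Polar

/-!
Packet DC4-GOODX (MP_628424_an): a null point with an orthogonal basis of good directions.
-/

namespace Pool.Agent.Helper64.DC

open MvPolynomial Finset ComplexConjugate Pool.Agent.Helper69.DC Pool.Agent.Helper8.DC
open Pool.Agent.Helper66.DC

/-- The substitution `(x, y) = ((β, a), (w, w . conj β))`. -/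
noncomputable def gxs {m : ℕ} (β : Fin m → ℂ) (a : ℂ) :
    (Fin m ⊕ Unit) ⊕ (Fin m ⊕ Unit) → MvPolynomial (Fin m) ℂ :=
  Sum.elim (Sum.elim (fun i => C (β i)) fun _ => C a)
    (Sum.elim X fun _ => ∑ i, X i * C (conj (β i)))

theorem ev_gxs {m : ℕ} (β : Fin m → ℂ) (a : ℂ) (w : Fin m → ℂ)
    (P : MvPolynomial ((Fin m ⊕ Unit) ⊕ (Fin m ⊕ Unit)) ℂ) :
    eval w (aeval (gxs β a) P) = eval (Sum.elim (Sum.elim β fun _ => a)
      (Sum.elim w fun _ => ∑ i, w i * conj (β i))) P := by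
  rw [eval_aeval']
  congr 1
  congr 1
  funext i
  rcases i with (i | i) | (i | i)
  · simp [gxs]
  · simp [gxs]
  · simp [gxs]
  · simp [gxs]

/-- The specialisation of the polynomial `W₂`. -/
noncomputable def gxw {m : ℕ} (z : V3 m → ℂ) :
    V3 m ⊕ Fin m → MvPolynomial (Fin m) ℂ :=
  Sum.elim (fun i => C (z i)) X

theorem ev_gxw {m : ℕ} (z : V3 m → ℂ) (w : Fin m → ℂ)
    (P : MvPolynomial (V3 m ⊕ Fin m) ℂ) :
    eval w (aeval (gxw z) P) = eval (Sum.elim z w) P := by
  rw [eval_aeval']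
  congr 1
  congr 1
  funext i
  rcases i with i | i
  · simp [gxw]
  · simp [gxw]

theorem gx_inj (m : ℕ) : Function.Injective
    (Sum.elim Sum.inl (fun i => Sum.inr (Sum.inr i)) :
      V3 m ⊕ Fin m → V3 m ⊕ (Fin m ⊕ Fin m)) := by
  intro x y hxy
  rcases x with x | x <;> rcases y with y | y
  · have h1 : (Sum.inl x : V3 m ⊕ (Fin m ⊕ Fin m)) = Sum.inl y := hxy
    rw [Sum.inl.inj h1]
  · have h1 : (Sum.inl x : V3 m ⊕ (Fin m ⊕ Fin m)) = Sum.inr (Sum.inr y) := hxy
    exact absurd h1 (by simp)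
  · have h1 : (Sum.inr (Sum.inr x) : V3 m ⊕ (Fin m ⊕ Fin m)) = Sum.inl y := hxy
    exact absurd h1 (by simp)
  · have h1 : (Sum.inr (Sum.inr x) : V3 m ⊕ (Fin m ⊕ Fin m)) = Sum.inr (Sum.inr y) := hxy
    rw [Sum.inr.inj (Sum.inr.inj h1)]

theorem rename_ne {σ τ : Type*} {g : σ → τ} (hg : Function.Injective g) {P : MvPolynomial σ ℂ}
    (hP : P ≠ 0) : rename g P ≠ 0 := by
  intro h0
  apply hP
  apply rename_injective g hg
  rw [h0, map_zero]

theorem h_goodx (h : Pool.Agent.Helper66.DC.Q_EXT) : Pool.Agent.Helper66.DC.Q_GOODX := by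
  intro m N d K f hf hm W₂ hW₂
  obtain ⟨D, hD, hD2⟩ := g_bez (Fin m ⊕ Unit) N f hf.cop
  obtain ⟨k, hk, hkd⟩ := exists_top hf
  have hH : homogeneousComponent d (f k) ≠ 0 := by
    rw [← hkd]
    exact hom_ne_zero hk
  obtain ⟨W, hW, hW2⟩ := h m N d f hf hm
  obtain ⟨G, hG⟩ : ∃ G : MvPolynomial ((Fin m ⊕ Unit) ⊕ (Fin m ⊕ Unit)) ℂ,
      G = D * rename Sum.inr (homogeneousComponent d (f k)) * rename Sum.inl (f k) * W := ⟨_, rfl⟩
  have hG0 : G ≠ 0 := by
    rw [hG]
    exact mul_ne_zero (mul_ne_zero (mul_ne_zero hD (rename_ne Sum.inr_injective hH))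
      (rename_ne Sum.inl_injective hk)) hW
  have hP : P1 G * rename (Sum.elim Sum.inl (fun i => Sum.inr (Sum.inr i)) :
      V3 m ⊕ Fin m → V3 m ⊕ (Fin m ⊕ Fin m)) W₂ ≠ 0 :=
    mul_ne_zero (P1_ne hG0 (by omega)) (rename_ne (gx_inj m) hW₂)
  have hex : ∃ (β : Fin m → ℂ) (b : ℂ) (v : Fin m → ℂ), b + conj b = ∑ i, β i * conj (β i) ∧
      eval (pp β (fun i => conj (β i)) b v fun i => conj (v i))
        (P1 G * rename (Sum.elim Sum.inl (fun i => Sum.inr (Sum.inr i)) :
          V3 m ⊕ Fin m → V3 m ⊕ (Fin m ⊕ Fin m)) W₂) ≠ 0 := by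
    by_contra hcon
    push Not at hcon
    exact hP (Pool.Agent.Helper5.DC.g_ld m (Fin m) _ fun β b w hb => hcon β b w hb)
  obtain ⟨β, b, v, hb, hev⟩ := hex
  rw [map_mul] at hev
  have e1 := left_ne_zero_of_mul hev
  have e2 := right_ne_zero_of_mul hev
  have ha : ∑ i, β i * conj (β i) - b = conj b := by
    rw [← hb]
    ring
  rw [ev_P1, ha] at e1
  have hcomp : (pp β (fun i => conj (β i)) b v fun i => conj (v i)) ∘
      (Sum.elim Sum.inl (fun i => Sum.inr (Sum.inr i)) :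
        V3 m ⊕ Fin m → V3 m ⊕ (Fin m ⊕ Fin m)) =
      Sum.elim (pt β (fun i => conj (β i)) b) fun i => conj (v i) := by
    funext i
    rcases i with i | i
    · rfl
    · rfl
  rw [eval_rename, hcomp] at e2
  have hnull : Null β (conj b) := by
    unfold Null
    rw [Complex.conj_conj, add_comm]
    exact hb
  -- the polynomials in the direction
  have hA : aeval (gxs β (conj b)) G ≠ 0 := by
    intro h0
    apply e1
    rw [← ev_gxs, h0, map_zero]
  have hB : Pool.Agent.Helper28.Ball.cj (aeval (gxw (pt β (fun i => conj (β i)) b)) W₂) ≠ 0 := by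
    intro h0
    have h1 := Pool.Agent.Helper28.Ball.eval_cj
      (aeval (gxw (pt β (fun i => conj (β i)) b)) W₂) v
    rw [h0, map_zero, ev_gxw] at h1
    apply e2
    have h2 := congrArg conj h1
    rw [map_zero, Complex.conj_conj] at h2
    exact h2.symm
  choose V hV0 hV using hW2 β (conj b) hnull
  obtain ⟨e, he1, he2, he3⟩ := Pool.Agent.Helper91.DC.g_ob m
    (aeval (gxs β (conj b)) G *
      Pool.Agent.Helper28.Ball.cj (aeval (gxw (pt β (fun i => conj (β i)) b)) W₂) *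
      ∏ j ∈ range (K + 1), V j)
    (mul_ne_zero (mul_ne_zero hA hB) (Finset.prod_ne_zero_iff.2 fun j _ => hV0 j))
  have hfk : eval (Sum.elim β fun _ => conj b) (f k) ≠ 0 := by
    rw [hG, map_mul, map_mul] at e1
    have h1 := right_ne_zero_of_mul (left_ne_zero_of_mul e1)
    rw [eval_rename, Sum.elim_comp_inl] at h1
    exact h1
  refine ⟨β, conj b, hnull, ?_, e, he1, he2, ?_⟩
  · intro h0
    exact hfk (congrFun h0 k)
  intro i
  have h3 := he3 i
  rw [map_mul, map_mul] at h3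
  have h5 := right_ne_zero_of_mul h3
  have h4 := left_ne_zero_of_mul (left_ne_zero_of_mul h3)
  have h6 := right_ne_zero_of_mul (left_ne_zero_of_mul h3)
  rw [ev_gxs, hG, map_mul, map_mul, map_mul] at h4
  have hWi := right_ne_zero_of_mul h4
  have hDi := left_ne_zero_of_mul (left_ne_zero_of_mul (left_ne_zero_of_mul h4))
  have hHi := right_ne_zero_of_mul (left_ne_zero_of_mul (left_ne_zero_of_mul h4))
  rw [eval_rename, Sum.elim_comp_inr] at hHi
  refine ⟨⟨?_, ?_, ?_⟩, ?_⟩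
  · intro t h0
    obtain ⟨l, hl⟩ := hD2 _ _ hDi t
    apply hl
    have h7 := congrFun h0 l
    unfold fv at h7
    rw [Pi.zero_apply] at h7
    rw [← h7]
    congr 1
    congr 1
    funext j
    rcases j with j | j
    · rfl
    · rfl
  · intro h0
    apply hHi
    have h7 := congrFun h0 k
    unfold AJ la at h7
    rw [Pi.zero_apply] at h7
    rw [← coeff_lin (Sum.elim β fun _ => conj b)
      (Sum.elim (e i) fun _ => ∑ j, e i j * conj (β j)) (f k) d hkd.le, ← h7]
    congr 1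
    congr 1
    congr 1
    funext j
    rcases j with j | j
    · rfl
    · rfl
  · intro l _ hl2
    apply hV l (e i) hWi
    rw [map_prod] at h5
    exact Finset.prod_ne_zero_iff.1 h5 l (mem_range.2 (by omega))
  · rw [Complex.conj_conj]
    rw [Pool.Agent.Helper28.Ball.eval_cj, ev_gxw] at h6
    intro h0
    apply h6
    rw [h0, map_zero]

end Pool.Agent.Helper64.DC
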