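import Pool.Agent.Helper64.DC.PEA

/-!
# Project DC: a differential equation with the symbol `e q`, `q` not divisible by `e` (`H_PE`)
-/

set_option autoImplicit false

namespace Pool.Agent.Helper64.DC

open Pool.Agent.Helper69.DC Pool.Agent.Helper96.DC Finset MvPolynomial ComplexConjugate
open Pool.Agent.Helper28.Ball

section

variable {m N : ℕ}

theorem tay3_fb (f : Fin (N + 1) → MvPolynomial (Fin m ⊕ Unit) ℂ) (k : Fin (N + 1)) :
    tay3 (fb f k) = C (fb f k) := by
  unfold fb
  have h : ∀ p : MvPolynomial (Fin m ⊕ Unit) ℂ, tay3 (rename (rho m) p) =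
      (C (rename (rho m) p) : MvPolynomial (Fin m) (MvPolynomial (V3 m) ℂ)) := by
    intro p
    induction p using MvPolynomial.induction_on with
    | C r =>
      rw [rename_C]
      unfold tay3
      rw [aeval_C]
      rfl
    | add p q hp hq => rw [map_add, map_add, hp, hq, C_add]
    | mul_X p v hp =>
      rw [map_mul, map_mul, hp, C_mul, rename_X]
      have h1 : (tay3 (X (rho m v)) : MvPolynomial (Fin m) (MvPolynomial (V3 m) ℂ)) =
          C (X (rho m v)) := by
        unfold tay3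
        rw [aeval_X]
        rcases v with i | u
        · rfl
        · rfl
      rw [h1]
  exact h _

/-- The Taylor expansion with coefficients including `e`. -/
noncomputable def GG (f : Fin (N + 1) → MvPolynomial (Fin m ⊕ Unit) ℂ) (k : Fin (N + 1)) :
    MvPolynomial (Fin m) (MvPolynomial (V3 m ⊕ Fin m) ℂ) :=
  MvPolynomial.map inc (tay3 (gg f k))

theorem GG_rel {d : ℕ} {f : Fin (N + 1) → MvPolynomial (Fin m ⊕ Unit) ℂ} (hf' : SMap m N d f) :
    GG f 0 * C (inc (fb f 0)) - ∑ l : Fin N, GG f l.succ * C (inc (fb f l.succ)) = 0 := by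
  have h1 : ∀ k, GG f k * C (inc (fb f k)) = MvPolynomial.map inc (tay3 (gg f k * fb f k)) := by
    intro k
    rw [map_mul, map_mul, tay3_fb, map_C]
    rfl
  simp only [h1]
  rw [← map_sum, ← map_sum, ← map_sub, ← map_sub, ident hf', map_zero, map_zero]

/-- The equation `k₀` follows from the others. -/
theorem one_eq {d : ℕ} {f : Fin (N + 1) → MvPolynomial (Fin m ⊕ Unit) ℂ} (hf' : SMap m N d f)
    (P : MvPolynomial (Fin m) (MvPolynomial (V3 m ⊕ Fin m) ℂ)) (k₀ : Fin (N + 1))
    (hk₀ : f k₀ ≠ 0) (h : ∀ k, k ≠ k₀ → pr P (GG f k) = 0) : IsPDE4 f P := by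
  have hE0 : ∀ k, k ≠ k₀ → pr P (GG f k) * inc (fb f k) = 0 := by
    intro k hk
    rw [h k hk, zero_mul]
  have hid : pr P (GG f 0) * inc (fb f 0) -
      ∑ l : Fin N, pr P (GG f l.succ) * inc (fb f l.succ) = 0 := by
    have h1 := congrArg (pr P) (GG_rel hf')
    rw [pr_sub_right, pr_sum_right, pr_zero_right, pr_mul_C] at h1
    simp only [pr_mul_C] at h1
    exact h1
  have hk : pr P (GG f k₀) * inc (fb f k₀) = 0 := by
    rcases Fin.eq_zero_or_eq_succ k₀ with h | ⟨l, h⟩
    · rw [sum_eq_zero, sub_zero] at hid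
      · rw [h]
        exact hid
      · intro l _
        exact hE0 _ (by rw [h]; exact Fin.succ_ne_zero l)
    · rw [hE0 0 (by rw [h]; exact (Fin.succ_ne_zero l).symm), zero_sub,
        neg_eq_zero, sum_eq_single l] at hid
      · rw [h]
        exact hid
      · intro l' _ hl'
        exact hE0 _ (by rw [h]; exact fun h' => hl' (Fin.succ_injective _ h'))
      · intro h'
        exact absurd (mem_univ _) h'
  have hinc : inc (fb f k₀) ≠ (0 : MvPolynomial (V3 m ⊕ Fin m) ℂ) := by
    intro h0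
    apply fb_ne_zero hk₀
    have h1 : Function.Injective (rename (R := ℂ) (Sum.inl : V3 m → V3 m ⊕ Fin m)) :=
      rename_injective _ Sum.inl_injective
    apply h1
    rw [map_zero]
    exact h0
  intro k
  by_cases hkk : k = k₀
  · rw [hkk]
    exact (mul_eq_zero.1 hk).resolve_right hinc
  · exact h k hkk

/-- The unknowns. -/
abbrev Ix (m : ℕ) := {γ : Fin m →₀ ℕ // γ ∈ finsuppAntidiag (univ : Finset (Fin m)) 2} ⊕
  ({γ : Fin m →₀ ℕ // γ ∈ finsuppAntidiag (univ : Finset (Fin m)) 0} ⊕
  ({γ : Fin m →₀ ℕ // γ ∈ finsuppAntidiag (univ : Finset (Fin m)) 1} ⊕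
  {γ : Fin m →₀ ℕ // γ ∈ finsuppAntidiag (univ : Finset (Fin m)) 2}))

theorem card_Ix (m : ℕ) : Fintype.card (Ix m) = (m + 1) ^ 2 := by
  unfold Ix
  rw [Fintype.card_sum, Fintype.card_sum, Fintype.card_sum, Fintype.card_coe, Fintype.card_coe,
    Fintype.card_coe, card_finsuppAntidiag_nat_eq_choose, card_finsuppAntidiag_nat_eq_choose,
    card_finsuppAntidiag_nat_eq_choose, card_univ, Fintype.card_fin, Nat.choose_zero_right,
    Nat.choose_one_right]
  have h1 : m + 2 - 1 = m + 1 := by omega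
  have h2 : m + 1 - 1 = m := by omega
  rw [h1, h2]
  have h3 : 2 * (m + 1).choose 2 = (m + 1) * m := by
    rw [Nat.choose_two_right, Nat.add_sub_cancel]
    exact Nat.mul_div_cancel' (by
      have := Nat.even_mul_succ_self m
      rw [mul_comm]
      exact this.two_dvd)
  have h4 : (m + 1) ^ 2 = (m + 1) * m + m + 1 := by ring
  omega

/-- The exponent of an unknown of the second group. -/
def ex {m : ℕ} : ({γ : Fin m →₀ ℕ // γ ∈ finsuppAntidiag (univ : Finset (Fin m)) 0} ⊕
  ({γ : Fin m →₀ ℕ // γ ∈ finsuppAntidiag (univ : Finset (Fin m)) 1} ⊕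
  {γ : Fin m →₀ ℕ // γ ∈ finsuppAntidiag (univ : Finset (Fin m)) 2})) → (Fin m →₀ ℕ)
  | Sum.inl γ => γ.1
  | Sum.inr (Sum.inl γ) => γ.1
  | Sum.inr (Sum.inr γ) => γ.1

theorem degree_mem {n : ℕ} {γ : Fin m →₀ ℕ}
    (h : γ ∈ finsuppAntidiag (univ : Finset (Fin m)) n) : γ.degree = n := by
  rw [mem_finsuppAntidiag] at h
  rw [Finsupp.degree_eq_sum]
  exact h.1

theorem ex_degree (x) : (ex x : Fin m →₀ ℕ).degree ≤ 2 := by
  rcases x with x | x | x
  · exact (degree_mem x.2).le.trans (by norm_num)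
  · exact (degree_mem x.2).le.trans (by norm_num)
  · exact (degree_mem x.2).le

theorem ex_injective : Function.Injective (ex (m := m)) := by
  intro x y h
  rcases x with x | x | x <;> rcases y with y | y | y <;>
    have h' : x.1 = y.1 := h
  · exact congrArg Sum.inl (Subtype.ext h')
  · exact absurd ((degree_mem x.2).symm.trans ((congrArg Finsupp.degree h').trans
      (degree_mem y.2))) (by norm_num)
  · exact absurd ((degree_mem x.2).symm.trans ((congrArg Finsupp.degree h').trans
      (degree_mem y.2))) (by norm_num)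
  · exact absurd ((degree_mem x.2).symm.trans ((congrArg Finsupp.degree h').trans
      (degree_mem y.2))) (by norm_num)
  · exact congrArg (fun z => Sum.inr (Sum.inl z)) (Subtype.ext h')
  · exact absurd ((degree_mem x.2).symm.trans ((congrArg Finsupp.degree h').trans
      (degree_mem y.2))) (by norm_num)
  · exact absurd ((degree_mem x.2).symm.trans ((congrArg Finsupp.degree h').trans
      (degree_mem y.2))) (by norm_num)
  · exact absurd ((degree_mem x.2).symm.trans ((congrArg Finsupp.degree h').trans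
      (degree_mem y.2))) (by norm_num)
  · exact congrArg (fun z => Sum.inr (Sum.inr z)) (Subtype.ext h')

/-- Coefficients of a sum of monomials with different exponents. -/
theorem coeff_sum_monomial {ι R : Type} [Fintype ι] [CommRing R] (e : ι → (Fin m →₀ ℕ))
    (he : Function.Injective e) (v : ι → R) (x : ι) :
    coeff (e x) (∑ y, monomial (e y) (v y)) = v x := by
  classical
  rw [coeff_sum, sum_eq_single x]
  · rw [coeff_monomial, if_pos rfl]
  · intro y _ hy
    rw [coeff_monomial, if_neg (fun h => hy (he h))]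
  · intro h
    exact absurd (mem_univ _) h

/-- Existence of `(q, P₂)`. -/
theorem exists_qP {d : ℕ} {f : Fin (N + 1) → MvPolynomial (Fin m ⊕ Unit) ℂ} (hf' : SMap m N d f)
    (hN : N < (m + 1) ^ 2) :
    ∃ q P₂ : MvPolynomial (Fin m) (MvPolynomial (V3 m ⊕ Fin m) ℂ),
      q.IsHomogeneous 2 ∧ P₂.totalDegree ≤ 2 ∧ IsPDE4 f (eY * q + P₂) ∧ (q ≠ 0 ∨ P₂ ≠ 0) := by
  classical
  obtain ⟨k₀, hk₀⟩ : ∃ k, f k ≠ 0 := by
    by_contra hc
    push Not at hc
    exact not_isUnit_zero (hf'.cop 0 fun k => by rw [hc k])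
  have hcard : Fintype.card {k : Fin (N + 1) // k ≠ k₀} < Fintype.card (Ix m) := by
    have h2 : Fintype.card {k : Fin (N + 1) // k ≠ k₀} = N := by
      rw [Fintype.card_subtype_compl, Fintype.card_fin, Fintype.card_subtype_eq]
      rfl
    rw [h2, card_Ix]
    exact hN
  obtain ⟨v, hv0, hv⟩ := exists_sol hcard (fun k => Sum.elim
    (fun γ => pr (eY * monomial γ.1 (1 : MvPolynomial (V3 m ⊕ Fin m) ℂ)) (GG f k.1))
    (fun x => pr (monomial (ex x) (1 : MvPolynomial (V3 m ⊕ Fin m) ℂ)) (GG f k.1)))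
  set q : MvPolynomial (Fin m) (MvPolynomial (V3 m ⊕ Fin m) ℂ) :=
    ∑ γ : {γ : Fin m →₀ ℕ // γ ∈ finsuppAntidiag (univ : Finset (Fin m)) 2},
      monomial γ.1 (v (Sum.inl γ)) with hq
  set P₂ : MvPolynomial (Fin m) (MvPolynomial (V3 m ⊕ Fin m) ℂ) :=
    ∑ x, monomial (ex x) (v (Sum.inr x)) with hP₂
  have hmon : ∀ (γ : Fin m →₀ ℕ) (a : MvPolynomial (V3 m ⊕ Fin m) ℂ),
      monomial γ a = C a * monomial γ 1 := by
    intro γ a
    rw [C_mul_monomial, mul_one]
  refine ⟨q, P₂, ?_, ?_, ?_, ?_⟩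
  · apply IsHomogeneous.sum
    intro γ _
    exact isHomogeneous_monomial _ (degree_mem γ.2)
  · refine (totalDegree_finsetSum _ _).trans (Finset.sup_le fun x _ => ?_)
    refine (totalDegree_monomial_le _ _).trans ?_
    exact ex_degree x
  · apply one_eq hf' _ k₀ hk₀
    intro k hk
    have h1 := hv ⟨k, hk⟩
    rw [Fintype.sum_sum_type] at h1
    simp only [Sum.elim_inl, Sum.elim_inr] at h1
    rw [pr_add_left, hq, mul_sum, pr_sum_left, hP₂, pr_sum_left, ← h1]
    congr 1
    · refine sum_congr rfl fun γ _ => ?_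
      rw [hmon γ.1 (v (Sum.inl γ)), mul_left_comm, pr_C_mul]
    · refine sum_congr rfl fun x _ => ?_
      rw [hmon (ex x) (v (Sum.inr x)), pr_C_mul]
  · by_contra hc
    push Not at hc
    apply hv0
    funext x
    rcases x with γ | x
    · have h1 := coeff_sum_monomial (fun γ : {γ : Fin m →₀ ℕ //
        γ ∈ finsuppAntidiag (univ : Finset (Fin m)) 2} => γ.1) Subtype.val_injective
        (fun γ => v (Sum.inl γ)) γ
      rw [← h1]
      show coeff γ.1 q = 0
      rw [hc.1, coeff_zero]
    · have h1 := coeff_sum_monomial (ex (m := m)) ex_injective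
        (fun x => v (Sum.inr x)) x
      rw [← h1]
      show coeff (ex x) P₂ = 0
      rw [hc.2, coeff_zero]

end

/-- **`H_PE`**. -/
theorem h_pe : Pool.Agent.Helper69.DC.H_PE := by
  intro m N d f hf' hN hno
  obtain ⟨q, P₂, hq, hP₂, hpde, hne⟩ := exists_qP hf' hN
  have hq0 : q ≠ 0 := by
    intro h0
    rcases hne with h | h
    · exact h h0
    · apply h
      apply pde4_zero hno P₂ hP₂
      rw [h0, mul_zero, zero_add] at hpde
      exact hpde
  obtain ⟨γ, hγ⟩ : ∃ γ, coeff γ q ≠ 0 := by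
    by_contra hc
    push Not at hc
    exact hq0 (by ext1 γ; rw [hc γ, coeff_zero])
  have hdeg := hq hγ
  obtain ⟨j₀⟩ : Nonempty (Fin m) := by
    by_contra hc
    rw [not_nonempty_iff] at hc
    have h1 : γ = 0 := Subsingleton.elim _ _
    rw [h1] at hdeg
    simp at hdeg
  exact descent j₀ _ q P₂ hq hP₂ hpde hq0 le_rfl

end Pool.Agent.Helper64.DC
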