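import Pool.Agent.Helper69.DC.Goals2
import Pool.Agent.Helper96.DC.PDE

/-!
# Project DC: a differential equation with the symbol `e q`, `q` not divisible by `e` (`H_PE`)
-/

set_option autoImplicit false

namespace Pool.Agent.Helper64.DC

open Pool.Agent.Helper69.DC Pool.Agent.Helper96.DC Finset MvPolynomial ComplexConjugate
open Pool.Agent.Helper28.Ball

/-! ### Linearity of the pairing -/

section Pr

variable {m : ℕ} {R : Type*} [CommRing R]

theorem pr_eq_sum (P G : MvPolynomial (Fin m) R) (T : Finset (Fin m →₀ ℕ)) (hT : P.support ⊆ T) :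
    pr P G = ∑ α ∈ T, P.coeff α * ((∏ i, (α i).factorial : ℕ) : R) * G.coeff α := by
  unfold pr
  refine sum_subset hT fun α _ h => ?_
  rw [notMem_support_iff.1 h, zero_mul, zero_mul]

theorem pr_add_left (P Q G : MvPolynomial (Fin m) R) : pr (P + Q) G = pr P G + pr Q G := by
  classical
  rw [pr_eq_sum (P + Q) G (P.support ∪ Q.support) support_add,
    pr_eq_sum P G _ subset_union_left, pr_eq_sum Q G _ subset_union_right, ← sum_add_distrib]
  refine sum_congr rfl fun α _ => ?_
  rw [coeff_add]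
  ring

theorem pr_C_mul (a : R) (P G : MvPolynomial (Fin m) R) : pr (C a * P) G = a * pr P G := by
  classical
  have h : (C a * P).support ⊆ P.support := by
    intro α hα
    rw [mem_support_iff, coeff_C_mul] at hα
    rw [mem_support_iff]
    exact right_ne_zero_of_mul hα
  rw [pr_eq_sum _ G P.support h, pr, mul_sum]
  refine sum_congr rfl fun α _ => ?_
  rw [coeff_C_mul]
  ring

theorem pr_zero_left (G : MvPolynomial (Fin m) R) : pr 0 G = 0 := by
  unfold pr
  rw [support_zero, sum_empty]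

theorem pr_sum_left {ι : Type*} (s : Finset ι) (P : ι → MvPolynomial (Fin m) R)
    (G : MvPolynomial (Fin m) R) : pr (∑ i ∈ s, P i) G = ∑ i ∈ s, pr (P i) G := by
  classical
  induction s using Finset.induction_on with
  | empty => rw [sum_empty, sum_empty, pr_zero_left]
  | insert i s hi ih => rw [sum_insert hi, sum_insert hi, pr_add_left, ih]

theorem pr_sub_right (P G H : MvPolynomial (Fin m) R) : pr P (G - H) = pr P G - pr P H := by
  unfold pr
  rw [← sum_sub_distrib]
  refine sum_congr rfl fun α _ => ?_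
  rw [coeff_sub]
  ring

theorem pr_sum_right {ι : Type*} (s : Finset ι) (P : MvPolynomial (Fin m) R)
    (G : ι → MvPolynomial (Fin m) R) : pr P (∑ i ∈ s, G i) = ∑ i ∈ s, pr P (G i) := by
  unfold pr
  rw [sum_comm]
  refine sum_congr rfl fun α _ => ?_
  rw [coeff_sum, mul_sum]

theorem coeff_mul_C' (G : MvPolynomial (Fin m) R) (a : R) (α : Fin m →₀ ℕ) :
    coeff α (G * C a) = coeff α G * a := by
  rw [mul_comm, coeff_C_mul, mul_comm]

theorem pr_mul_C (P G : MvPolynomial (Fin m) R) (a : R) : pr P (G * C a) = pr P G * a := by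
  unfold pr
  rw [sum_mul]
  refine sum_congr rfl fun α _ => ?_
  rw [coeff_mul_C']
  ring

theorem pr_zero_right (P : MvPolynomial (Fin m) R) : pr P 0 = 0 := by
  unfold pr
  refine sum_eq_zero fun α _ => ?_
  rw [coeff_zero, mul_zero]

end Pr

/-! ### Additive maps on coefficients -/

section Mc

variable {m : ℕ} {R R' S : Type*} [CommRing R] [CommRing R'] [CommRing S]

/-- Apply an additive map to all coefficients. -/
noncomputable def mc (κ : R →+ R') (P : MvPolynomial (Fin m) R) : MvPolynomial (Fin m) R' :=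
  ∑ α ∈ P.support, monomial α (κ (P.coeff α))

theorem coeff_mc (κ : R →+ R') (P : MvPolynomial (Fin m) R) (α : Fin m →₀ ℕ) :
    coeff α (mc κ P) = κ (coeff α P) := by
  classical
  unfold mc
  rw [coeff_sum]
  simp only [coeff_monomial]
  rw [sum_ite_eq' P.support α]
  split_ifs with h
  · rfl
  · rw [notMem_support_iff.1 h, map_zero]

theorem support_mc (κ : R →+ R') (P : MvPolynomial (Fin m) R) :
    (mc κ P).support ⊆ P.support := by
  intro α hα
  rw [mem_support_iff, coeff_mc] at hα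
  rw [mem_support_iff]
  intro h
  exact hα (by rw [h, map_zero])

theorem pr_mc (κ : R →+ R') (i : S →+* R) (i' : S →+* R')
    (hκ : ∀ c a, κ (c * i a) = κ c * i' a) (P : MvPolynomial (Fin m) R)
    (G : MvPolynomial (Fin m) S) : pr (mc κ P) (map i' G) = κ (pr P (map i G)) := by
  rw [pr_eq_sum _ _ P.support (support_mc κ P), pr, map_sum]
  refine sum_congr rfl fun α _ => ?_
  rw [coeff_mc, coeff_map, coeff_map, mul_assoc, mul_assoc]
  rw [← map_natCast i', ← map_mul i', ← hκ, map_mul i, map_natCast i]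

theorem mc_add (κ : R →+ R') (P Q : MvPolynomial (Fin m) R) : mc κ (P + Q) = mc κ P + mc κ Q := by
  ext α
  rw [coeff_mc, coeff_add, coeff_add, coeff_mc, coeff_mc, map_add]

theorem mc_mul_X (κ : R →+ R') (P : MvPolynomial (Fin m) R) (i : Fin m) :
    mc κ (P * X i) = mc κ P * X i := by
  classical
  ext α
  rw [coeff_mc, coeff_mul_X', coeff_mul_X', coeff_mc]
  split_ifs
  · rfl
  · rw [map_zero]

theorem mc_C (κ : R →+ R') (a : R) : mc (m := m) κ (C a) = C (κ a) := by
  classical
  ext α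
  rw [coeff_mc, coeff_C, coeff_C]
  split_ifs
  · rfl
  · rw [map_zero]

theorem mc_sum {ι : Type*} (κ : R →+ R') (s : Finset ι) (P : ι → MvPolynomial (Fin m) R) :
    mc κ (∑ i ∈ s, P i) = ∑ i ∈ s, mc κ (P i) := by
  ext α
  rw [coeff_mc, coeff_sum, coeff_sum, map_sum]
  refine sum_congr rfl fun i _ => ?_
  rw [coeff_mc]

theorem totalDegree_mc (κ : R →+ R') (P : MvPolynomial (Fin m) R) :
    (mc κ P).totalDegree ≤ P.totalDegree := by
  unfold totalDegree
  exact sup_mono (support_mc κ P)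

theorem isHomogeneous_mc (κ : R →+ R') {P : MvPolynomial (Fin m) R} {n : ℕ}
    (h : P.IsHomogeneous n) : (mc κ P).IsHomogeneous n := by
  intro α hα
  rw [coeff_mc] at hα
  apply h
  intro h'
  exact hα (by rw [h', map_zero])

end Mc

/-! ### Coefficients with respect to `e` -/

section Ce

variable {m : ℕ}

/-- Polynomials in `e` with coefficients polynomial in `(β, β', b)`. -/
noncomputable def eEquiv (m : ℕ) : MvPolynomial (V3 m ⊕ Fin m) ℂ ≃ₐ[ℂ]
    MvPolynomial (Fin m) (MvPolynomial (V3 m) ℂ) :=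
  (MvPolynomial.renameEquiv ℂ (Equiv.sumComm (V3 m) (Fin m))).trans
    (MvPolynomial.sumAlgEquiv ℂ (Fin m) (V3 m))

theorem eEquiv_inc (g : MvPolynomial (V3 m) ℂ) : eEquiv m (inc g) = C g := by
  have : (eEquiv m : MvPolynomial (V3 m ⊕ Fin m) ℂ →+* _).comp inc
      = (C : MvPolynomial (V3 m) ℂ →+* MvPolynomial (Fin m) (MvPolynomial (V3 m) ℂ)) := by
    apply MvPolynomial.ringHom_ext
    · intro r
      simp [eEquiv, inc]
    · intro i
      simp [eEquiv, inc]
  exact congrArg (fun q => q g) this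

/-- The coefficient of `e^δ`. -/
noncomputable def cE (δ : Fin m →₀ ℕ) :
    MvPolynomial (V3 m ⊕ Fin m) ℂ →+ MvPolynomial (V3 m) ℂ where
  toFun a := coeff δ (eEquiv m a)
  map_zero' := by rw [map_zero, coeff_zero]
  map_add' a b := by rw [map_add, coeff_add]

theorem cE_mul_inc (δ : Fin m →₀ ℕ) (c : MvPolynomial (V3 m ⊕ Fin m) ℂ)
    (a : MvPolynomial (V3 m) ℂ) : cE δ (c * inc a) = cE δ c * RingHom.id _ a := by
  show coeff δ (eEquiv m (c * inc a)) = coeff δ (eEquiv m c) * a
  rw [map_mul, eEquiv_inc, coeff_mul_C']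

theorem exists_cE_ne {a : MvPolynomial (V3 m ⊕ Fin m) ℂ} (h : a ≠ 0) : ∃ δ, cE δ a ≠ 0 := by
  by_contra hc
  push Not at hc
  apply h
  apply (eEquiv m).injective
  rw [map_zero]
  ext1 δ
  rw [coeff_zero]
  exact hc δ

/-- No equation over `(β, β', b)` implies no equation over `(β, β', b, e)`. -/
theorem pde4_zero {N : ℕ} {f : Fin (N + 1) → MvPolynomial (Fin m ⊕ Unit) ℂ}
    (hno : ∀ P : MvPolynomial (Fin m) (MvPolynomial (V3 m) ℂ), P.totalDegree ≤ 2 →
      IsPDE f P → P = 0) (P : MvPolynomial (Fin m) (MvPolynomial (V3 m ⊕ Fin m) ℂ))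
    (hP : P.totalDegree ≤ 2) (h : IsPDE4 f P) : P = 0 := by
  ext1 α
  rw [coeff_zero]
  by_contra hc
  obtain ⟨δ, hδ⟩ := exists_cE_ne hc
  have h1 := hno (mc (cE δ) P) ((totalDegree_mc _ _).trans hP) (by
    intro k
    have h2 := pr_mc (cE δ) inc (RingHom.id _) (cE_mul_inc δ) P (tay3 (gg f k))
    rw [MvPolynomial.map_id, h k, map_zero] at h2
    exact h2)
  apply hδ
  rw [← coeff_mc, h1, coeff_zero]

end Ce

/-! ### Polynomials in one variable -/

section Poly

variable {K : Type*} [CommRing K]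

theorem poly_lin_ne {x r : K} (hx : x ≠ 0) :
    Polynomial.C x * Polynomial.X + Polynomial.C r ≠ 0 := by
  intro h
  have := Polynomial.natDegree_linear (a := x) (b := r) hx
  rw [h, Polynomial.natDegree_zero] at this
  exact zero_ne_one this

theorem poly_mul_deg [IsDomain K] {x r : K} (hx : x ≠ 0) {H : Polynomial K} (hH : H ≠ 0) :
    ((Polynomial.C x * Polynomial.X + Polynomial.C r) * H).natDegree = H.natDegree + 1 := by
  rw [Polynomial.natDegree_mul (poly_lin_ne hx) hH, Polynomial.natDegree_linear hx, add_comm]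

theorem poly_ne [IsDomain K] [CharZero K] {x r : K} (hx : x ≠ 0) {H : Polynomial K} (hH : H ≠ 0) :
    2 * Polynomial.C x * H +
      (Polynomial.C x * Polynomial.X + Polynomial.C r) * Polynomial.derivative H ≠ 0 := by
  intro h0
  have h1 := congrArg (fun p => Polynomial.coeff p H.natDegree) h0
  have h2 : (2 * Polynomial.C x * H).coeff H.natDegree = 2 * x * H.coeff H.natDegree := by
    have : (2 : Polynomial K) * Polynomial.C x = Polynomial.C (2 * x) := by
      rw [Polynomial.C_mul]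
      rfl
    rw [this, Polynomial.coeff_C_mul]
  have h3 : ((Polynomial.C x * Polynomial.X + Polynomial.C r) *
      Polynomial.derivative H).coeff H.natDegree =
      x * ((H.natDegree : K) * H.coeff H.natDegree) := by
    rw [add_mul, Polynomial.coeff_add, Polynomial.coeff_C_mul, Polynomial.coeff_derivative,
      Polynomial.coeff_eq_zero_of_natDegree_lt (Nat.lt_succ_self _), zero_mul, mul_zero,
      add_zero, mul_assoc, Polynomial.coeff_C_mul]
    congr 1
    rcases Nat.eq_zero_or_pos H.natDegree with h4 | h4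
    · rw [h4, Polynomial.mul_coeff_zero, Polynomial.coeff_X_zero, zero_mul, Nat.cast_zero,
        zero_mul]
    · obtain ⟨l, hl⟩ := Nat.exists_eq_succ_of_ne_zero h4.ne'
      rw [hl, Polynomial.coeff_X_mul, Polynomial.coeff_derivative]
      push_cast
      ring
  simp only [Polynomial.coeff_zero, Polynomial.coeff_add] at h1
  rw [h2, h3] at h1
  have h4 : x * (((H.natDegree + 2 : ℕ) : K) * H.coeff H.natDegree) = 0 := by
    rw [← h1]
    push_cast
    ring
  rcases mul_eq_zero.1 h4 with h5 | h5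
  · exact hx h5
  · rcases mul_eq_zero.1 h5 with h6 | h6
    · rw [Nat.cast_eq_zero] at h6
      omega
    · rw [Polynomial.coeff_natDegree, Polynomial.leadingCoeff_eq_zero] at h6
      exact hH h6

theorem poly_deg {x r : K} (H : Polynomial K) :
    (2 * Polynomial.C x * H +
      (Polynomial.C x * Polynomial.X + Polynomial.C r) * Polynomial.derivative H).natDegree ≤
    H.natDegree := by
  refine (Polynomial.natDegree_add_le _ _).trans (max_le ?_ ?_)
  · refine (Polynomial.natDegree_mul_le).trans ?_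
    have h1 : (2 * Polynomial.C x).natDegree = 0 := by
      have : (2 : Polynomial K) * Polynomial.C x = Polynomial.C (2 * x) := by
        rw [Polynomial.C_mul]
        rfl
      rw [this, Polynomial.natDegree_C]
    rw [h1, zero_add]
  · rcases Nat.eq_zero_or_pos H.natDegree with h4 | h4
    · rw [Polynomial.derivative_of_natDegree_zero h4, mul_zero, Polynomial.natDegree_zero]
      exact Nat.zero_le _
    · refine (Polynomial.natDegree_mul_le).trans ?_
      have h5 : (Polynomial.C x * Polynomial.X + Polynomial.C r).natDegree ≤ 1 :=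
        Polynomial.natDegree_linear_le
      have := Polynomial.natDegree_derivative_le H
      omega

end Poly

/-! ### The derivative with respect to `e_j` and the evaluation `e_j = T` -/

section De

variable {m : ℕ}

/-- The derivative with respect to `e_j` on coefficients. -/
noncomputable def kd (j : Fin m) :
    MvPolynomial (V3 m ⊕ Fin m) ℂ →+ MvPolynomial (V3 m ⊕ Fin m) ℂ where
  toFun a := pderiv (Sum.inr j) a
  map_zero' := map_zero _
  map_add' a b := map_add _ a b

theorem kd_apply (j : Fin m) (a : MvPolynomial (V3 m ⊕ Fin m) ℂ) :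
    kd j a = pderiv (Sum.inr j) a := rfl

theorem pderiv_inc (j : Fin m) (a : MvPolynomial (V3 m) ℂ) :
    pderiv (Sum.inr j) (inc a : MvPolynomial (V3 m ⊕ Fin m) ℂ) = 0 := by
  classical
  apply pderiv_eq_zero_of_notMem_vars
  intro h
  have h1 := vars_rename (Sum.inl : V3 m → V3 m ⊕ Fin m) a h
  rw [mem_image] at h1
  obtain ⟨x, -, hx⟩ := h1
  exact Sum.inl_ne_inr hx

theorem kd_mul_inc (j : Fin m) (c : MvPolynomial (V3 m ⊕ Fin m) ℂ)
    (a : MvPolynomial (V3 m) ℂ) : kd j (c * inc a) = kd j c * inc a := by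
  show pderiv (Sum.inr j) (c * inc a) = pderiv (Sum.inr j) c * inc a
  rw [pderiv_mul, pderiv_inc, mul_zero, add_zero]

/-- The derivative with respect to `e_j`. -/
noncomputable def dY (j : Fin m) (P : MvPolynomial (Fin m) (MvPolynomial (V3 m ⊕ Fin m) ℂ)) :
    MvPolynomial (Fin m) (MvPolynomial (V3 m ⊕ Fin m) ℂ) := mc (kd j) P

theorem dY_pde {N : ℕ} {f : Fin (N + 1) → MvPolynomial (Fin m ⊕ Unit) ℂ} (j : Fin m)
    {P : MvPolynomial (Fin m) (MvPolynomial (V3 m ⊕ Fin m) ℂ)} (h : IsPDE4 f P) :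
    IsPDE4 f (dY j P) := by
  intro k
  unfold dY
  rw [pr_mc (kd j) inc inc (kd_mul_inc j) P (tay3 (gg f k)), h k, map_zero]

theorem dY_C_mul (j : Fin m) (c : MvPolynomial (V3 m ⊕ Fin m) ℂ)
    (P : MvPolynomial (Fin m) (MvPolynomial (V3 m ⊕ Fin m) ℂ)) :
    dY j (C c * P) = C (pderiv (Sum.inr j) c) * P + C c * dY j P := by
  ext1 α
  unfold dY
  rw [coeff_mc, coeff_C_mul, coeff_add, coeff_C_mul, coeff_C_mul, coeff_mc]
  show pderiv (Sum.inr j) (c * coeff α P) = pderiv (Sum.inr j) c * coeff α P +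
    c * pderiv (Sum.inr j) (coeff α P)
  rw [pderiv_mul]

theorem dY_eY_mul (j : Fin m) (P : MvPolynomial (Fin m) (MvPolynomial (V3 m ⊕ Fin m) ℂ)) :
    dY j (eY * P) = X j * P + eY * dY j P := by
  classical
  have h1 : ∀ i : Fin m, dY j (C (X (Sum.inr i)) * X i * P) =
      (if i = j then X i * P else 0) + C (X (Sum.inr i)) * X i * dY j P := by
    intro i
    have h2 : dY j (P * X i) = dY j P * X i := mc_mul_X _ _ _
    rw [mul_assoc, mul_comm (X i) P, dY_C_mul, h2, pderiv_X]
    split_ifs with h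
    · rw [h, Pi.single_eq_same, C_1]
      ring
    · rw [Pi.single_eq_of_ne (fun h' => h (Sum.inr_injective h')), C_0]
      ring
  unfold eY
  rw [sum_mul, sum_mul]
  unfold dY at h1 ⊢
  rw [mc_sum, sum_congr rfl fun i _ => h1 i, sum_add_distrib, sum_ite_eq' univ j,
    if_pos (mem_univ j)]

/-- `e_j ↦ T` on coefficients. -/
noncomputable def sA (j₀ : Fin m) : MvPolynomial (V3 m ⊕ Fin m) ℂ →+*
    Polynomial (MvPolynomial (Fin m) (MvPolynomial (V3 m ⊕ Fin m) ℂ)) :=
  eval₂Hom (Polynomial.C.comp (C.comp C)) (Sum.elim (fun v => Polynomial.C (C (X (Sum.inl v))))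
    (fun j => if j = j₀ then Polynomial.X else Polynomial.C (C (X (Sum.inr j)))))

/-- `e_j ↦ T`. -/
noncomputable def sY (j₀ : Fin m) : MvPolynomial (Fin m) (MvPolynomial (V3 m ⊕ Fin m) ℂ) →+*
    Polynomial (MvPolynomial (Fin m) (MvPolynomial (V3 m ⊕ Fin m) ℂ)) :=
  eval₂Hom (sA j₀) (fun j => Polynomial.C (X j))

theorem sY_C (j₀ : Fin m) (a : MvPolynomial (V3 m ⊕ Fin m) ℂ) : sY j₀ (C a) = sA j₀ a := by
  unfold sY
  rw [coe_eval₂Hom, eval₂_C]

theorem sY_X (j₀ i : Fin m) : sY j₀ (X i) = Polynomial.C (X i) := by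
  unfold sY
  rw [coe_eval₂Hom, eval₂_X]

theorem sA_C (j₀ : Fin m) (r : ℂ) : sA j₀ (C r) = Polynomial.C (C (C r)) := by
  unfold sA
  rw [coe_eval₂Hom, eval₂_C]
  rfl

theorem sA_inl (j₀ : Fin m) (v : V3 m) : sA j₀ (X (Sum.inl v)) =
    Polynomial.C (C (X (Sum.inl v))) := by
  unfold sA
  rw [coe_eval₂Hom, eval₂_X, Sum.elim_inl]

theorem sA_inr (j₀ j : Fin m) : sA j₀ (X (Sum.inr j)) =
    if j = j₀ then Polynomial.X else Polynomial.C (C (X (Sum.inr j))) := by
  unfold sA
  rw [coe_eval₂Hom, eval₂_X, Sum.elim_inr]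

theorem eval_sA_X (j₀ : Fin m) (v : V3 m ⊕ Fin m) :
    (sA j₀ (X v)).eval (C (X (Sum.inr j₀))) = C (X v) := by
  rcases v with v | j
  · rw [sA_inl, Polynomial.eval_C]
  · rw [sA_inr]
    split_ifs with h
    · rw [Polynomial.eval_X, h]
    · rw [Polynomial.eval_C]

theorem eval_sA (j₀ : Fin m) (a : MvPolynomial (V3 m ⊕ Fin m) ℂ) :
    (sA j₀ a).eval (C (X (Sum.inr j₀))) = C a := by
  induction a using MvPolynomial.induction_on with
  | C r => rw [sA_C, Polynomial.eval_C]
  | add p q hp hq => rw [map_add, Polynomial.eval_add, hp, hq, C_add]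
  | mul_X p v hp => rw [map_mul, Polynomial.eval_mul, hp, C_mul, eval_sA_X]

theorem eval_sY (j₀ : Fin m) (P : MvPolynomial (Fin m) (MvPolynomial (V3 m ⊕ Fin m) ℂ)) :
    (sY j₀ P).eval (C (X (Sum.inr j₀))) = P := by
  induction P using MvPolynomial.induction_on with
  | C a => rw [sY_C, eval_sA]
  | add p q hp hq => rw [map_add, Polynomial.eval_add, hp, hq]
  | mul_X p i hp => rw [map_mul, Polynomial.eval_mul, hp, sY_X, Polynomial.eval_C]

theorem sY_eq_zero {j₀ : Fin m} {P : MvPolynomial (Fin m) (MvPolynomial (V3 m ⊕ Fin m) ℂ)}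
    (h : sY j₀ P = 0) : P = 0 := by
  rw [← eval_sY j₀ P, h, Polynomial.eval_zero]

theorem derivative_sA_X (j₀ : Fin m) (v : V3 m ⊕ Fin m) :
    sA j₀ (pderiv (Sum.inr j₀) (X v)) = Polynomial.derivative (sA j₀ (X v)) := by
  classical
  rcases v with v | j
  · rw [sA_inl, Polynomial.derivative_C, pderiv_X_of_ne Sum.inl_ne_inr, map_zero]
  · rw [sA_inr]
    split_ifs with h
    · rw [h, Polynomial.derivative_X, pderiv_X_self, map_one]
    · rw [Polynomial.derivative_C, pderiv_X_of_ne (fun h' => h (Sum.inr_injective h')), map_zero]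

theorem derivative_sA (j₀ : Fin m) (a : MvPolynomial (V3 m ⊕ Fin m) ℂ) :
    sA j₀ (pderiv (Sum.inr j₀) a) = Polynomial.derivative (sA j₀ a) := by
  induction a using MvPolynomial.induction_on with
  | C r => rw [pderiv_C, map_zero, sA_C, Polynomial.derivative_C]
  | add p q hp hq => rw [map_add, map_add, map_add, map_add, hp, hq]
  | mul_X p v hp =>
    rw [pderiv_mul, map_add, map_mul, map_mul, map_mul, Polynomial.derivative_mul, hp,
      derivative_sA_X]

theorem derivative_sY (j₀ : Fin m) (P : MvPolynomial (Fin m) (MvPolynomial (V3 m ⊕ Fin m) ℂ)) :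
    sY j₀ (dY j₀ P) = Polynomial.derivative (sY j₀ P) := by
  classical
  unfold dY
  induction P using MvPolynomial.induction_on with
  | C a =>
    rw [mc_C, sY_C, sY_C, kd_apply, derivative_sA]
  | add p q hp hq => rw [mc_add, map_add, map_add, map_add, hp, hq]
  | mul_X p i hp =>
    rw [mc_mul_X, map_mul, map_mul, Polynomial.derivative_mul, hp, sY_X, Polynomial.derivative_C,
      mul_zero, add_zero]

/-- `S (eY) = y_j T + r`. -/
theorem sY_eY (j₀ : Fin m) : ∃ r : MvPolynomial (Fin m) (MvPolynomial (V3 m ⊕ Fin m) ℂ),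
    sY j₀ eY = Polynomial.C (X j₀) * Polynomial.X + Polynomial.C r := by
  classical
  refine ⟨∑ j ∈ univ.erase j₀, C (X (Sum.inr j)) * X j, ?_⟩
  unfold eY
  rw [map_sum, ← add_sum_erase univ _ (mem_univ j₀), map_mul, sY_C, sY_X, sA_inr, if_pos rfl,
    map_sum]
  have h1 : ∑ x ∈ univ.erase j₀, sY j₀ (C (X (Sum.inr x)) * X x) =
      ∑ x ∈ univ.erase j₀, Polynomial.C (C (X (Sum.inr x)) * X x) := by
    refine sum_congr rfl fun j hj => ?_
    rw [map_mul, sY_C, sY_X, sA_inr, if_neg (ne_of_mem_erase hj), ← Polynomial.C_mul]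
  rw [h1, mul_comm]

theorem eY_homog : (eY (m := m)).IsHomogeneous 1 := by
  unfold eY
  apply IsHomogeneous.sum
  intro j _
  have h := (isHomogeneous_C (Fin m) (X (Sum.inr j) : MvPolynomial (V3 m ⊕ Fin m) ℂ)).mul
    (isHomogeneous_X (MvPolynomial (V3 m ⊕ Fin m) ℂ) j)
  rwa [zero_add] at h

/-- A cofactor of `eY` in a homogeneous polynomial may be taken homogeneous. -/
theorem homog_cofactor {q : MvPolynomial (Fin m) (MvPolynomial (V3 m ⊕ Fin m) ℂ)}
    (hq : q.IsHomogeneous 2) (h : eY ∣ q) :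
    ∃ g : MvPolynomial (Fin m) (MvPolynomial (V3 m ⊕ Fin m) ℂ), g.IsHomogeneous 1 ∧
      q = eY * g := by
  classical
  obtain ⟨p, hp⟩ := h
  refine ⟨homogeneousComponent 1 p, homogeneousComponent_isHomogeneous 1 p, ?_⟩
  have h1 : q = ∑ i ∈ range (p.totalDegree + 1), eY * homogeneousComponent i p := by
    rw [← mul_sum, sum_homogeneousComponent, hp]
  have h2 : ∀ i, homogeneousComponent 2 (eY * homogeneousComponent i p) =
      if i = 1 then eY * homogeneousComponent 1 p else 0 := by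
    intro i
    have h3 : (eY * homogeneousComponent i p) ∈ homogeneousSubmodule (Fin m)
        (MvPolynomial (V3 m ⊕ Fin m) ℂ) (1 + i) := by
      rw [mem_homogeneousSubmodule]
      exact eY_homog.mul (homogeneousComponent_isHomogeneous i p)
    rw [homogeneousComponent_of_mem h3]
    by_cases hi : i = 1
    · subst hi
      rw [if_pos rfl, if_pos rfl]
    · rw [if_neg (by omega), if_neg hi]
  have h4 : q = homogeneousComponent 2 q := (homogeneousComponent_eq_self hq).symm
  rw [h1, map_sum, sum_congr rfl fun i _ => h2 i, sum_ite_eq', ← h1] at h4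
  split_ifs at h4 with h5
  · exact h4
  · rw [mem_range, not_lt] at h5
    have h6 : homogeneousComponent 1 p = 0 := homogeneousComponent_eq_zero 1 p (by omega)
    rw [h6, mul_zero, h4]

/-- The new solution. -/
theorem step {N : ℕ} {f : Fin (N + 1) → MvPolynomial (Fin m ⊕ Unit) ℂ} (j₀ : Fin m)
    {h P₂ : MvPolynomial (Fin m) (MvPolynomial (V3 m ⊕ Fin m) ℂ)}
    (hpde : IsPDE4 f (eY * (eY * h) + P₂)) :
    IsPDE4 f (eY * (X j₀ * h + dY j₀ (eY * h)) + dY j₀ P₂) := by
  have h1 := dY_pde j₀ hpde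
  have h2 : dY j₀ (eY * (eY * h) + P₂) =
      eY * (X j₀ * h + dY j₀ (eY * h)) + dY j₀ P₂ := by
    have h3 : dY j₀ (eY * (eY * h) + P₂) = dY j₀ (eY * (eY * h)) + dY j₀ P₂ := mc_add _ _ _
    rw [h3, dY_eY_mul j₀ (eY * h), mul_add, mul_left_comm]
  rwa [h2] at h1

/-- The image of the new solution. -/
theorem sY_step (j₀ : Fin m) (h : MvPolynomial (Fin m) (MvPolynomial (V3 m ⊕ Fin m) ℂ)) :
    sY j₀ (X j₀ * h + dY j₀ (eY * h)) = 2 * Polynomial.C (X j₀) * sY j₀ h +
      sY j₀ eY * Polynomial.derivative (sY j₀ h) := by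
  rw [dY_eY_mul, map_add, map_add, map_mul, sY_X, map_mul, derivative_sY, ← add_assoc,
    ← two_mul, mul_assoc]

/-- The minimality argument. -/
theorem descent {N : ℕ} {f : Fin (N + 1) → MvPolynomial (Fin m ⊕ Unit) ℂ} (j₀ : Fin m) (n : ℕ) :
    ∀ q P₂ : MvPolynomial (Fin m) (MvPolynomial (V3 m ⊕ Fin m) ℂ),
      q.IsHomogeneous 2 → P₂.totalDegree ≤ 2 → IsPDE4 f (eY * q + P₂) → q ≠ 0 →
      (sY j₀ q).natDegree ≤ n →
      ∃ q P₂ : MvPolynomial (Fin m) (MvPolynomial (V3 m ⊕ Fin m) ℂ),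
        q.IsHomogeneous 2 ∧ P₂.totalDegree ≤ 2 ∧ IsPDE4 f (eY * q + P₂) ∧ q ≠ 0 ∧ ¬ eY ∣ q := by
  obtain ⟨r, hr⟩ := sY_eY j₀
  have hX : (X j₀ : MvPolynomial (Fin m) (MvPolynomial (V3 m ⊕ Fin m) ℂ)) ≠ 0 := X_ne_zero j₀
  have hdm : ∀ h : MvPolynomial (Fin m) (MvPolynomial (V3 m ⊕ Fin m) ℂ), eY * h ≠ 0 →
      (sY j₀ (eY * h)).natDegree = (sY j₀ h).natDegree + 1 := by
    intro h hh
    rw [map_mul, hr]
    apply poly_mul_deg hX
    intro h'
    apply hh
    rw [sY_eq_zero h', mul_zero]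
  induction n with
  | zero =>
    intro q P₂ hq hP₂ hpde hq0 hn
    refine ⟨q, P₂, hq, hP₂, hpde, hq0, ?_⟩
    rintro ⟨p, rfl⟩
    rw [hdm p hq0] at hn
    exact Nat.not_succ_le_zero _ hn
  | succ n ih =>
    intro q P₂ hq hP₂ hpde hq0 hn
    by_cases hdvd : eY ∣ q
    · obtain ⟨h, hh, hqh⟩ := homog_cofactor hq hdvd
      subst hqh
      have hh0 : sY j₀ h ≠ 0 := by
        intro h'
        apply hq0
        rw [sY_eq_zero h', mul_zero]
      rw [hdm h hq0] at hn
      have hdeg : (sY j₀ h).natDegree ≤ n := Nat.le_of_succ_le_succ hn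
      have hq'2 : (X j₀ * h + dY j₀ (eY * h)).IsHomogeneous 2 := by
        have h1 := (isHomogeneous_X (MvPolynomial (V3 m ⊕ Fin m) ℂ) j₀).mul hh
        exact h1.add (isHomogeneous_mc (kd j₀) hq)
      have hS := sY_step j₀ h
      rw [hr] at hS
      refine ih (X j₀ * h + dY j₀ (eY * h)) (dY j₀ P₂) hq'2 ((totalDegree_mc _ _).trans hP₂)
        (step j₀ hpde) ?_ ?_
      · intro h0
        rw [h0, map_zero] at hS
        exact poly_ne hX hh0 hS.symm
      · rw [hS]
        exact (poly_deg _).trans hdeg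
    · exact ⟨q, P₂, hq, hP₂, hpde, hq0, hdvd⟩

end De

end Pool.Agent.Helper64.DC
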